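import Pool.Agent.Q259.ShearA

/-!
# MP_2eb075_an : the bounded support point `F` is never an extreme point of `S_A^0(𝔹²)`

`A = diag(λ, 1)` with `1 ≤ λ < 2`, `F(z) = (z₁ + (a₀ / (2 - λ)) z₂², z₂)`.
With `q(z) = (1 - x₀²) z₁ - x₀ z₂²`, where `(x₀, √(1 - x₀²))` is the zero of
`λ x² + y² - a₀ x y²` on the unit circle, the maps `F ± ε (q³, 0)` are `A`-spirallike for small
`ε > 0`.
-/

open Set Metric Filter Topology MeasureTheory

namespace Pool.Agent.Results.MP_2eb075_an.NotExtreme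

/-- `ℂ²` with the Euclidean norm. Coordinates are `z 0`, `z 1` (the `z₁`, `z₂` of the problem). -/
abbrev E2 := EuclideanSpace ℂ (Fin 2)

/-- The operator `A = diag(l, 1)`. -/
noncomputable def opA (l : ℝ) (z : E2) : E2 := !₂[(l : ℂ) * z 0, z 1]

/-- The operator `e^{tA} = diag(e^{l t}, e^t)`. -/
noncomputable def expA (l t : ℝ) (z : E2) : E2 :=
  !₂[(Real.exp (l * t) : ℂ) * z 0, (Real.exp t : ℂ) * z 1]

/-- The class `𝒩_A`. Mathlib's `inner ℂ z w` is `∑ conj (z i) * w i`, i.e. `⟨w, z⟩`. -/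
structure MemNA (l : ℝ) (h : E2 → E2) : Prop where
  holo : DifferentiableOn ℂ h (ball 0 1)
  zero : h 0 = 0
  deriv : ∀ w, fderiv ℂ h 0 w = opA l w
  pos : ∀ z ∈ ball (0 : E2) 1, z ≠ 0 → 0 < (inner ℂ z (h z) : ℂ).re

/-- `h(z, t)` is a Herglotz vector field. -/
def IsHerglotz (l : ℝ) (h : E2 → ℝ → E2) : Prop :=
  (∀ᵐ t ∂(volume.restrict (Ici (0 : ℝ))), MemNA l fun z => h z t) ∧
    ∀ z ∈ ball (0 : E2) 1, Measurable (h z)

/-- `v(t)`, `t ≥ 0`, is the locally absolutely continuous solution of `∂ₜ v = -h(v, t)` a.e.,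
`v(0) = z` in the ball (integral form). -/
def IsSolution (h : E2 → ℝ → E2) (z : E2) (v : ℝ → E2) : Prop :=
  ∀ t, 0 ≤ t → v t ∈ ball (0 : E2) 1 ∧
    IntervalIntegrable (fun s => h (v s) s) volume 0 t ∧ v t = z - ∫ s in (0 : ℝ)..t, h (v s) s

/-- `f(z) = lim e^{tA} v(z, t)` locally uniformly on the ball, for the flow `v` of a Herglotz vector
field `h`. -/
def HasParamRep (l : ℝ) (f : E2 → E2) : Prop :=
  ∃ h : E2 → ℝ → E2, IsHerglotz l h ∧ ∃ v : E2 → ℝ → E2,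
    (∀ z ∈ ball (0 : E2) 1, IsSolution h z (v z)) ∧
    TendstoLocallyUniformlyOn (fun t z => expA l t (v z t)) f atTop (ball 0 1)

/-- The map is holomorphic on the ball with `f(0) = 0`, `Df(0) = I`. -/
structure IsNormalized (f : E2 → E2) : Prop where
  holo : DifferentiableOn ℂ f (ball 0 1)
  zero : f 0 = 0
  deriv : HasFDerivAt f (ContinuousLinearMap.id ℂ E2) 0

/-- `S_A^0(𝔹²)`: the normalized holomorphic maps with `A`-parametric representation. -/
def SA (l : ℝ) : Set (E2 → E2) := {f | IsNormalized f ∧ HasParamRep l f}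

/-- `f = t g + (1 - t) k` on the ball. -/
def IsCombo (t : ℝ) (f g k : E2 → E2) : Prop :=
  ∀ z ∈ ball (0 : E2) 1, f z = (t : ℂ) • g z + ((1 - t : ℝ) : ℂ) • k z

/-- Extreme points of a family of maps of the ball (equality of maps means equality on the
ball). -/
def IsExtreme (S : Set (E2 → E2)) (f : E2 → E2) : Prop :=
  f ∈ S ∧ ∀ g ∈ S, ∀ k ∈ S, ∀ t : ℝ, 0 < t → t < 1 → IsCombo t f g k →
    EqOn g f (ball 0 1) ∧ EqOn k f (ball 0 1)

/-- The set `{a > 0 : l x² + y² - a x y² ≥ 0 for x, y ≥ 0, x² + y² ≤ 1}`. -/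
def adm (l : ℝ) : Set ℝ :=
  {a | 0 < a ∧ ∀ x y : ℝ, 0 ≤ x → 0 ≤ y → x ^ 2 + y ^ 2 ≤ 1 →
    0 ≤ l * x ^ 2 + y ^ 2 - a * x * y ^ 2}

/-- `a₀ = max {a > 0 : l x² + y² - a x y² ≥ 0 for x, y ≥ 0, x² + y² ≤ 1}` (the maximum exists,
see `isGreatest_a0`). -/
noncomputable def a0 (l : ℝ) : ℝ := sSup (adm l)

/-- The bounded support point `F`. -/
noncomputable def F (l : ℝ) (z : E2) : E2 :=
  !₂[z 0 + (a0 l / (2 - l) : ℝ) * z 1 ^ 2, z 1]

open Pool.Agent.Q259.ShearA Pool.Agent.Q259.Flow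

/-- The operator `A` as a continuous linear map. -/
noncomputable def clA (l : ℝ) : E2 →L[ℂ] E2 :=
  LinearMap.toContinuousLinearMap (Matrix.toEuclideanLin !![(l : ℂ), 0; 0, 1])

theorem clA_zero (l : ℝ) (z : E2) : clA l z 0 = l * z 0 := by
  simp [clA, Matrix.toEuclideanLin, Matrix.toLpLin, dotProduct, Fin.sum_univ_two]

theorem clA_one (l : ℝ) (z : E2) : clA l z 1 = z 1 := by
  simp [clA, Matrix.toEuclideanLin, Matrix.toLpLin, dotProduct, Fin.sum_univ_two]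

theorem clA_apply (l : ℝ) (z : E2) : clA l z = opA l z := by
  ext i
  fin_cases i
  · exact clA_zero l z
  · exact clA_one l z

theorem a0_eq {l x0 a : ℝ} (h : Dat l x0 a) : a0 l = a := h.isGreatest.csSup_eq

theorem isGreatest_a0 {l : ℝ} (hl1 : 1 ≤ l) (hl2 : l < 2) : IsGreatest (adm l) (a0 l) := by
  obtain ⟨x0, a, h⟩ := exists_dat hl1 hl2
  rw [a0_eq h]
  exact h.isGreatest

noncomputable section

/-- The polynomial `q`. -/
def q (x0 : ℝ) (z : E2) : ℂ := (1 - (x0 : ℂ) ^ 2) * z 0 - x0 * z 1 ^ 2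

/-- The denominator. -/
def den (x0 e : ℝ) (z : E2) : ℂ := 1 + 3 * e * (1 - (x0 : ℂ) ^ 2) * q x0 z ^ 2

/-- The numerator. -/
def num (l x0 a e : ℝ) (z : E2) : ℂ :=
  l * z 0 - a * z 1 ^ 2 + e * q x0 z ^ 2 * (l * q x0 z + 6 * x0 * z 1 ^ 2)

/-- The generating field. -/
def hh (l x0 a e : ℝ) (z : E2) : E2 := !₂[num l x0 a e z / den x0 e z, z 1]

/-- The perturbed map. -/
def ff (l x0 a e : ℝ) (z : E2) : E2 :=
  !₂[z 0 + (a / (2 - l) : ℝ) * z 1 ^ 2 + e * q x0 z ^ 3, z 1]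

/-- The remainder polynomial. -/
def rem (l x0 a : ℝ) (z : E2) : ℂ :=
  l * q x0 z + 6 * x0 * z 1 ^ 2 - 3 * (1 - (x0 : ℂ) ^ 2) * (l * z 0 - a * z 1 ^ 2)

theorem ball_iff {z : E2} : z ∈ ball (0 : E2) 1 ↔ ‖z 0‖ ^ 2 + ‖z 1‖ ^ 2 < 1 := by
  rw [mem_ball_zero_iff, ← Fin.sum_univ_two (f := fun i => ‖z i‖ ^ 2), ← EuclideanSpace.norm_sq_eq]
  constructor
  · intro h
    nlinarith [norm_nonneg z]
  · intro h
    by_contra hh
    push Not at hh
    nlinarith

theorem coord_le {z : E2} (hz : z ∈ ball (0 : E2) 1) (i : Fin 2) : ‖z i‖ ≤ 1 := by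
  rw [mem_ball_zero_iff] at hz
  exact (PiLp.norm_apply_le z i).trans hz.le

variable {l x0 a e : ℝ}

theorem c_norm (h : Dat l x0 a) : ‖(1 : ℂ) - (x0 : ℂ) ^ 2‖ ≤ 1 := by
  have e1 : (1 : ℂ) - (x0 : ℂ) ^ 2 = ((1 - x0 ^ 2 : ℝ) : ℂ) := by push_cast; ring
  have h0 := h.x0pos
  have h1 := h.x0lt
  rw [e1, Complex.norm_real, Real.norm_of_nonneg (by nlinarith)]
  nlinarith

theorem x_norm (h : Dat l x0 a) : ‖(x0 : ℂ)‖ ≤ 1 := by
  rw [Complex.norm_real, Real.norm_of_nonneg h.x0pos.le]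
  exact h.x0lt.le

theorem q_norm' (h : Dat l x0 a) (z : E2) : ‖q x0 z‖ ≤ ‖z 0‖ + ‖z 1‖ ^ 2 := by
  have hc := c_norm h
  have hx := x_norm h
  calc ‖q x0 z‖ ≤ ‖(1 - (x0 : ℂ) ^ 2) * z 0‖ + ‖(x0 : ℂ) * z 1 ^ 2‖ := norm_sub_le _ _
    _ = ‖1 - (x0 : ℂ) ^ 2‖ * ‖z 0‖ + ‖(x0 : ℂ)‖ * ‖z 1‖ ^ 2 := by rw [norm_mul, norm_mul, norm_pow]
    _ ≤ 1 * ‖z 0‖ + 1 * ‖z 1‖ ^ 2 := by gcongr
    _ = _ := by ring

theorem q_norm (h : Dat l x0 a) {z : E2} (hz : z ∈ ball (0 : E2) 1) : ‖q x0 z‖ ≤ 2 := by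
  have h0 := coord_le hz 0
  have h1 := coord_le hz 1
  have := q_norm' h z
  nlinarith [norm_nonneg (z 1)]

/-- The bound `M` of the remainder polynomial. -/
def bd (l a : ℝ) : ℝ := 2 * l + 6 + 3 * (l + a)

theorem bd_ge (h : Dat l x0 a) : 1 ≤ bd l a := by
  have := h.one_le
  have := h.hl1
  unfold bd
  linarith

theorem rem_norm (h : Dat l x0 a) {z : E2} (hz : z ∈ ball (0 : E2) 1) :
    ‖rem l x0 a z‖ ≤ bd l a := by
  have h0 := coord_le hz 0
  have h1 := coord_le hz 1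
  have hq := q_norm h hz
  have hc := c_norm h
  have hx := x_norm h
  have ha := h.one_le
  have hl := h.hl1
  have hln : ‖(l : ℂ)‖ = l := by rw [Complex.norm_real, Real.norm_of_nonneg (by linarith)]
  have han : ‖(a : ℂ)‖ = a := by rw [Complex.norm_real, Real.norm_of_nonneg (by linarith)]
  calc ‖rem l x0 a z‖ ≤ ‖(l : ℂ) * q x0 z + 6 * x0 * z 1 ^ 2‖ +
        ‖3 * (1 - (x0 : ℂ) ^ 2) * (l * z 0 - a * z 1 ^ 2)‖ := norm_sub_le _ _
    _ ≤ (‖(l : ℂ) * q x0 z‖ + ‖6 * (x0 : ℂ) * z 1 ^ 2‖) +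
        ‖3 * (1 - (x0 : ℂ) ^ 2)‖ * (‖(l : ℂ) * z 0‖ + ‖(a : ℂ) * z 1 ^ 2‖) := by
          rw [norm_mul (3 * (1 - (x0 : ℂ) ^ 2))]
          gcongr
          · exact norm_add_le _ _
          · exact norm_sub_le _ _
    _ = (l * ‖q x0 z‖ + 6 * ‖(x0 : ℂ)‖ * ‖z 1‖ ^ 2) +
        3 * ‖1 - (x0 : ℂ) ^ 2‖ * (l * ‖z 0‖ + a * ‖z 1‖ ^ 2) := by
          simp only [norm_mul, norm_pow, hln, han]
          norm_num
    _ ≤ (l * 2 + 6 * 1 * 1 ^ 2) + 3 * 1 * (l * 1 + a * 1 ^ 2) := by gcongr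
    _ = bd l a := by unfold bd; ring

theorem den_sub (h : Dat l x0 a) {z : E2} (hz : z ∈ ball (0 : E2) 1) (he : |e| ≤ 1 / 24) :
    1 / 2 ≤ ‖den x0 e z‖ := by
  have hq := q_norm h hz
  have hc := c_norm h
  have h1 : ‖3 * (e : ℂ) * (1 - (x0 : ℂ) ^ 2) * q x0 z ^ 2‖ ≤ 1 / 2 := by
    calc ‖3 * (e : ℂ) * (1 - (x0 : ℂ) ^ 2) * q x0 z ^ 2‖
        = 3 * |e| * ‖1 - (x0 : ℂ) ^ 2‖ * ‖q x0 z‖ ^ 2 := by
          simp only [norm_mul, norm_pow, Complex.norm_real, Real.norm_eq_abs]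
          norm_num
      _ ≤ 3 * (1 / 24) * 1 * 2 ^ 2 := by gcongr
      _ = 1 / 2 := by norm_num
  have h2 : ‖(1 : ℂ)‖ ≤ ‖den x0 e z‖ + ‖3 * (e : ℂ) * (1 - (x0 : ℂ) ^ 2) * q x0 z ^ 2‖ := by
    have e1 : (1 : ℂ) = den x0 e z - 3 * (e : ℂ) * (1 - (x0 : ℂ) ^ 2) * q x0 z ^ 2 := by
      unfold den; ring
    calc ‖(1 : ℂ)‖ = ‖den x0 e z - 3 * (e : ℂ) * (1 - (x0 : ℂ) ^ 2) * q x0 z ^ 2‖ := by rw [← e1]
      _ ≤ _ := norm_sub_le _ _
  rw [norm_one] at h2
  linarith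

theorem den_ne (h : Dat l x0 a) {z : E2} (hz : z ∈ ball (0 : E2) 1) (he : |e| ≤ 1 / 24) :
    den x0 e z ≠ 0 := by
  have := den_sub h hz he
  intro h0
  rw [h0, norm_zero] at this
  linarith

theorem num_div (h : Dat l x0 a) {z : E2} (hz : z ∈ ball (0 : E2) 1) (he : |e| ≤ 1 / 24) :
    num l x0 a e z / den x0 e z =
      (l * z 0 - a * z 1 ^ 2) + e * q x0 z ^ 2 * rem l x0 a z / den x0 e z := by
  have hne := den_ne h hz he
  rw [eq_comm, add_div' _ _ _ hne]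
  congr 1
  unfold num rem den
  ring

theorem re_inner_hh (z w : E2) : (inner ℂ z w : ℂ).re =
    ((starRingEnd ℂ) (z 0) * w 0).re + ((starRingEnd ℂ) (z 1) * w 1).re := by
  rw [PiLp.inner_apply, Fin.sum_univ_two]
  simp only [RCLike.inner_apply, Complex.add_re]
  rw [mul_comm, mul_comm (w 1)]

theorem hh_pos (h : Dat l x0 a) (he : |e| ≤ 1 / (24 * bd l a)) {z : E2}
    (hz : z ∈ ball (0 : E2) 1) (hz0 : z ≠ 0) : 0 < (inner ℂ z (hh l x0 a e z) : ℂ).re := by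
  have hbd := bd_ge h
  have he' : |e| ≤ 1 / 24 := by
    refine he.trans ?_
    apply one_div_le_one_div_of_le (by norm_num)
    linarith
  have hb := ball_iff.1 hz
  have hne : z 0 ≠ 0 ∨ z 1 ≠ 0 := by
    by_contra hh
    push Not at hh
    apply hz0
    ext i
    fin_cases i
    · exact hh.1
    · exact hh.2
  have hS := h.complex_ineq (u := z 0) (v := z 1) hb.le
  have hSp := h.complex_pos (u := z 0) (v := z 1) hb hne
  set S := ((starRingEnd ℂ) (z 0) * (l * z 0 - a * z 1 ^ 2)).re + ‖z 1‖ ^ 2 with hSdef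
  have e1 : (inner ℂ z (hh l x0 a e z) : ℂ).re = S +
      ((starRingEnd ℂ) (z 0) * (e * q x0 z ^ 2 * rem l x0 a z / den x0 e z)).re := by
    rw [re_inner_hh]
    have e2 : hh l x0 a e z 0 = num l x0 a e z / den x0 e z := rfl
    have e3 : hh l x0 a e z 1 = z 1 := rfl
    have e4 : ((starRingEnd ℂ) (z 1) * z 1).re = ‖z 1‖ ^ 2 := by
      rw [Complex.sq_norm, Complex.normSq_apply]
      simp
    rw [e2, e3, e4, num_div h hz he', mul_add, Complex.add_re, hSdef]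
    ring
  have e5 : ‖(starRingEnd ℂ) (z 0) * (e * q x0 z ^ 2 * rem l x0 a z / den x0 e z)‖ ≤
      1 * (1 / (24 * bd l a) * ‖q x0 z‖ ^ 2 * bd l a / (1 / 2)) := by
    rw [norm_mul, norm_div, norm_mul, norm_mul, norm_pow, Complex.norm_real, Real.norm_eq_abs,
      RCLike.norm_conj]
    gcongr
    · exact coord_le hz 0
    · exact rem_norm h hz
    · exact den_sub h hz he'
  have e6 : 1 * (1 / (24 * bd l a) * ‖q x0 z‖ ^ 2 * bd l a / (1 / 2)) = 1 / 12 * ‖q x0 z‖ ^ 2 := by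
    have : bd l a ≠ 0 := by linarith
    field_simp
    ring
  rw [e6] at e5
  have e7 := (abs_le.1 (Complex.abs_re_le_norm
    ((starRingEnd ℂ) (z 0) * (e * q x0 z ^ 2 * rem l x0 a z / den x0 e z)))).1
  have e8 : 1 / 4 * ‖q x0 z‖ ^ 2 ≤ S := hS
  rw [e1]
  nlinarith

/-! ### derivatives -/

theorem p0_deriv (z : E2) : HasFDerivAt (fun z : E2 => z 0) (EuclideanSpace.proj 0 : E2 →L[ℂ] ℂ) z :=
  (EuclideanSpace.proj 0 : E2 →L[ℂ] ℂ).hasFDerivAt

theorem p1_deriv (z : E2) : HasFDerivAt (fun z : E2 => z 1) (EuclideanSpace.proj 1 : E2 →L[ℂ] ℂ) z :=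
  (EuclideanSpace.proj 1 : E2 →L[ℂ] ℂ).hasFDerivAt

theorem vec_hasFDerivAt {f : E2 → E2} {f' : E2 →L[ℂ] E2} {z : E2}
    (h0 : HasFDerivAt (fun w => f w 0) ((EuclideanSpace.proj 0 : E2 →L[ℂ] ℂ) ∘L f') z)
    (h1 : HasFDerivAt (fun w => f w 1) ((EuclideanSpace.proj 1 : E2 →L[ℂ] ℂ) ∘L f') z) :
    HasFDerivAt f f' z := by
  rw [← hasFDerivWithinAt_univ, hasFDerivWithinAt_euclidean]
  intro i
  rw [hasFDerivWithinAt_univ]
  fin_cases i
  · exact h0
  · exact h1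

theorem q_diff (x0 : ℝ) : Differentiable ℂ (q x0) := by
  unfold q
  have h0 : Differentiable ℂ (fun z : E2 => z 0) := fun z => (p0_deriv z).differentiableAt
  have h1 : Differentiable ℂ (fun z : E2 => z 1) := fun z => (p1_deriv z).differentiableAt
  exact (h0.const_mul _).sub ((h1.pow 2).const_mul _)

theorem ff_diff (l x0 a e : ℝ) : Differentiable ℂ (ff l x0 a e) := by
  have h0 : Differentiable ℂ (fun z : E2 => z 0) := fun z => (p0_deriv z).differentiableAt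
  have h1 : Differentiable ℂ (fun z : E2 => z 1) := fun z => (p1_deriv z).differentiableAt
  rw [differentiable_euclidean]
  intro i
  fin_cases i
  · exact (h0.add ((h1.pow 2).const_mul _)).add (((q_diff x0).pow 3).const_mul _)
  · exact h1

theorem hh_diff (h : Dat l x0 a) (he : |e| ≤ 1 / 24) :
    DifferentiableOn ℂ (hh l x0 a e) (ball 0 1) := by
  have h0 : Differentiable ℂ (fun z : E2 => z 0) := fun z => (p0_deriv z).differentiableAt
  have h1 : Differentiable ℂ (fun z : E2 => z 1) := fun z => (p1_deriv z).differentiableAt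
  have hn : Differentiable ℂ (num l x0 a e) :=
    ((h0.const_mul _).sub ((h1.pow 2).const_mul _)).add
      ((((q_diff x0).pow 2).const_mul _).mul (((q_diff x0).const_mul _).add
        ((h1.pow 2).const_mul _)))
  have hd : Differentiable ℂ (den x0 e) :=
    (differentiable_const _).add (((q_diff x0).pow 2).const_mul _)
  rw [differentiableOn_euclidean]
  intro i
  fin_cases i
  · have hi : DifferentiableOn ℂ (fun z => (den x0 e z)⁻¹) (ball 0 1) := fun z hz =>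
      ((hd z).inv (den_ne h hz he)).differentiableWithinAt
    have hm := hn.differentiableOn.mul hi
    refine hm.congr fun z hz => ?_
    simp [hh, div_eq_mul_inv]
  · exact h1.differentiableOn

theorem q_zero (x0 : ℝ) : q x0 0 = 0 := by simp [q]

theorem ff_deriv (l x0 a e : ℝ) : HasFDerivAt (ff l x0 a e) (ContinuousLinearMap.id ℂ E2) 0 := by
  apply vec_hasFDerivAt
  · have h1 := ((p0_deriv 0).add (((p1_deriv 0).pow 2).const_mul ((a / (2 - l) : ℝ) : ℂ))).add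
      ((((q_diff x0) 0).hasFDerivAt.pow 3).const_mul (e : ℂ))
    refine h1.congr_fderiv ?_
    ext z
    simp [q_zero]
  · refine (p1_deriv 0).congr_fderiv ?_
    ext z
    simp

theorem hh_deriv (l x0 a e : ℝ) : HasFDerivAt (hh l x0 a e) (clA l) 0 := by
  apply vec_hasFDerivAt
  · have hq := ((q_diff x0) 0).hasFDerivAt
    have hn : HasFDerivAt (num l x0 a e) ((l : ℂ) • (EuclideanSpace.proj 0 : E2 →L[ℂ] ℂ)) 0 := by
      have := (((p0_deriv 0).const_mul (l : ℂ)).sub (((p1_deriv 0).pow 2).const_mul (a : ℂ))).add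
        (((hq.pow 2).const_mul (e : ℂ)).mul ((hq.const_mul (l : ℂ)).add
          (((p1_deriv 0).pow 2).const_mul (6 * x0 : ℂ))))
      refine this.congr_fderiv ?_
      ext z
      simp [q_zero]
    have hd : HasFDerivAt (den x0 e) (0 : E2 →L[ℂ] ℂ) 0 := by
      have := (hasFDerivAt_const (1 : ℂ) (0 : E2)).add
        ((hq.pow 2).const_mul (3 * e * (1 - (x0 : ℂ) ^ 2)))
      refine this.congr_fderiv ?_
      ext z
      simp [q_zero]
    have hd0 : den x0 e 0 = 1 := by simp [den, q_zero]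
    have hn0 : num l x0 a e 0 = 0 := by simp [num, q_zero]
    have hi : HasFDerivAt (fun z => (den x0 e z)⁻¹) (0 : E2 →L[ℂ] ℂ) 0 := by
      have h3 := (hasDerivAt_inv (x := den x0 e 0) (by rw [hd0]; exact one_ne_zero)).comp_hasFDerivAt
        (0 : E2) hd
      refine h3.congr_fderiv ?_
      ext w
      simp
    have h4 : (fun w => hh l x0 a e w 0) = fun w => num l x0 a e w * (den x0 e w)⁻¹ := by
      funext w
      simp [hh, div_eq_mul_inv]
    rw [h4]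
    refine (hn.mul hi).congr_fderiv ?_
    ext z
    simp [hd0, hn0, clA_zero]
  · refine (p1_deriv 0).congr_fderiv ?_
    ext z
    simp [clA_one]

theorem hh_zero (l x0 a e : ℝ) : hh l x0 a e 0 = 0 := by
  ext i
  fin_cases i
  · simp [hh, num, q_zero]
  · simp [hh]

theorem hh_mem (h : Dat l x0 a) (he : |e| ≤ 1 / (24 * bd l a)) : MemNA l (hh l x0 a e) where
  holo := by
    apply hh_diff h
    refine he.trans ?_
    apply one_div_le_one_div_of_le (by norm_num)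
    linarith [bd_ge h]
  zero := hh_zero l x0 a e
  deriv := fun w => by rw [(hh_deriv l x0 a e).fderiv, clA_apply]
  pos := fun z hz hz0 => hh_pos h he hz hz0

theorem hh_smooth (h : Dat l x0 a) (he : |e| ≤ 1 / 24) :
    ContDiffOn ℝ 1 (hh l x0 a e) (ball 0 1) := by
  have h0 : ContDiff ℂ 1 (fun z : E2 => z 0) := (EuclideanSpace.proj 0 : E2 →L[ℂ] ℂ).contDiff
  have h1 : ContDiff ℂ 1 (fun z : E2 => z 1) := (EuclideanSpace.proj 1 : E2 →L[ℂ] ℂ).contDiff
  have hq : ContDiff ℂ 1 (q x0) := (contDiff_const.mul h0).sub (contDiff_const.mul (h1.pow 2))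
  have hn : ContDiff ℂ 1 (num l x0 a e) :=
    ((contDiff_const.mul h0).sub (contDiff_const.mul (h1.pow 2))).add
      ((contDiff_const.mul (hq.pow 2)).mul ((contDiff_const.mul hq).add
        (contDiff_const.mul (h1.pow 2))))
  have hd : ContDiff ℂ 1 (den x0 e) := contDiff_const.add (contDiff_const.mul (hq.pow 2))
  have hC : ContDiffOn ℂ 1 (hh l x0 a e) (ball 0 1) := by
    rw [contDiffOn_euclidean]
    intro i
    fin_cases i
    · have hi : ContDiffOn ℂ 1 (fun z => (den x0 e z)⁻¹) (ball 0 1) :=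
        hd.contDiffOn.inv fun z hz => den_ne h hz he
      refine (hn.contDiffOn.mul hi).congr fun z hz => ?_
      simp [hh, div_eq_mul_inv]
    · exact h1.contDiffOn
  exact hC.restrict_scalars ℝ

theorem const_of_deriv {f : ℝ → ℂ} (hf : ∀ t, 0 ≤ t → HasDerivAt f 0 t) {t : ℝ} (ht : 0 ≤ t) :
    f t = f 0 := by
  refine constant_of_has_deriv_right_zero (a := 0) (b := t) ?_ ?_ t ⟨ht, le_rfl⟩
  · intro s hs
    exact (hf s hs.1).continuousAt.continuousWithinAt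
  · intro s hs
    exact (hf s hs.1).hasDerivWithinAt

theorem cexp_deriv (c t : ℝ) : HasDerivAt (fun s : ℝ => ((Real.exp (c * s) : ℝ) : ℂ))
    (((c * Real.exp (c * t) : ℝ)) : ℂ) t := by
  have h1 : HasDerivAt (fun s : ℝ => Real.exp (c * s)) (c * Real.exp (c * t)) t := by
    have := ((hasDerivAt_id t).const_mul c).exp
    simp only [id, mul_one] at this
    rwa [mul_comm] at this
  exact h1.ofReal_comp

theorem coord1 {v : ℝ → E2} {z : E2} (hv0 : v 0 = z)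
    (hv : ∀ t, 0 ≤ t → HasDerivAt v (-(hh l x0 a e (v t))) t) {t : ℝ} (ht : 0 ≤ t) :
    (Real.exp t : ℂ) * v t 1 = z 1 := by
  have key : ∀ s, 0 ≤ s → HasDerivAt (fun s : ℝ => ((Real.exp (1 * s) : ℝ) : ℂ) * v s 1) 0 s := by
    intro s hs
    have h1 := (cexp_deriv 1 s).mul (coord_hasDerivAt (hv s hs) 1)
    refine h1.congr_deriv ?_
    have : (-(hh l x0 a e (v s))) 1 = -(v s 1) := rfl
    rw [this]
    push_cast
    ring
  have := const_of_deriv key ht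
  simpa [hv0] using this

theorem coord0 (h : Dat l x0 a) (he : |e| ≤ 1 / 24) {v : ℝ → E2} {z : E2} (hv0 : v 0 = z)
    (hvb : ∀ t, 0 ≤ t → v t ∈ ball (0 : E2) 1)
    (hv : ∀ t, 0 ≤ t → HasDerivAt v (-(hh l x0 a e (v t))) t) {t : ℝ} (ht : 0 ≤ t) :
    (Real.exp (l * t) : ℂ) * ff l x0 a e (v t) 0 = ff l x0 a e z 0 := by
  have key : ∀ s, 0 ≤ s →
      HasDerivAt (fun s : ℝ => ((Real.exp (l * s) : ℝ) : ℂ) * ff l x0 a e (v s) 0) 0 s := by
    intro s hs
    have d0 := coord_hasDerivAt (hv s hs) 0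
    have d1 := coord_hasDerivAt (hv s hs) 1
    have e0 : (-(hh l x0 a e (v s))) 0 = -(num l x0 a e (v s) / den x0 e (v s)) := rfl
    have e1 : (-(hh l x0 a e (v s))) 1 = -(v s 1) := rfl
    rw [e0] at d0
    rw [e1] at d1
    set W := num l x0 a e (v s) / den x0 e (v s) with hW
    have hden := den_ne h (hvb s hs) he
    have hWd : W * den x0 e (v s) = num l x0 a e (v s) := div_mul_cancel₀ _ hden
    have dq : HasDerivAt (fun s => q x0 (v s))
        ((1 - (x0 : ℂ) ^ 2) * (-W) - x0 * (2 * v s 1 * (-(v s 1)))) s := by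
      have := (d0.const_mul (1 - (x0 : ℂ) ^ 2)).sub ((d1.pow 2).const_mul (x0 : ℂ))
      refine this.congr_deriv ?_
      simp
    have df : HasDerivAt (fun s => ff l x0 a e (v s) 0)
        (-W + ((a / (2 - l) : ℝ) : ℂ) * (2 * v s 1 * (-(v s 1))) +
          e * (3 * q x0 (v s) ^ 2 * ((1 - (x0 : ℂ) ^ 2) * (-W) - x0 * (2 * v s 1 * (-(v s 1)))))) s := by
      have := (d0.add ((d1.pow 2).const_mul ((a / (2 - l) : ℝ) : ℂ))).add
        ((dq.pow 3).const_mul (e : ℂ))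
      refine this.congr_deriv ?_
      simp
    refine ((cexp_deriv l s).mul df).congr_deriv ?_
    have hff : ff l x0 a e (v s) 0 =
        v s 0 + ((a / (2 - l) : ℝ) : ℂ) * v s 1 ^ 2 + e * q x0 (v s) ^ 3 := rfl
    have hb : ((a / (2 - l) : ℝ) : ℂ) * (2 - l) = a := by
      have h2 : (2 - l : ℝ) ≠ 0 := by linarith [h.hl2]
      have : (a / (2 - l)) * (2 - l) = a := div_mul_cancel₀ _ h2
      rw [← this]
      push_cast
      have h3 : (2 - (l : ℂ)) ≠ 0 := by exact_mod_cast h2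
      field_simp
    rw [hff]
    unfold num den at hWd
    push_cast at hb ⊢
    linear_combination (-(Complex.exp (l * s))) * hWd - (Complex.exp (l * s)) * v s 1 ^ 2 * hb
  have := const_of_deriv key ht
  simpa [hv0] using this

/-- The error term. -/
def err (l b t : ℝ) : ℝ :=
  b * Real.exp (-((2 - l) * t)) + (3 * b + 4) ^ 3 * Real.exp (-((2 * l) * t))

theorem err_tendsto (hl1 : 1 ≤ l) (hl2 : l < 2) (b : ℝ) : Tendsto (err l b) atTop (𝓝 0) := by
  have h1 : ∀ c : ℝ, 0 < c → Tendsto (fun t : ℝ => Real.exp (-(c * t))) atTop (𝓝 0) := by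
    intro c hc
    exact Real.tendsto_exp_neg_atTop_nhds_zero.comp (tendsto_id.const_mul_atTop hc)
  have := ((h1 (2 - l) (by linarith)).const_mul b).add
    ((h1 (2 * l) (by linarith)).const_mul ((3 * b + 4) ^ 3))
  rw [mul_zero, mul_zero, add_zero] at this
  exact this

theorem norm_ff_le (h : Dat l x0 a) (he : |e| ≤ 1 / 24) {z : E2} (hz : z ∈ ball (0 : E2) 1) :
    ‖ff l x0 a e z 0‖ ≤ 2 + a / (2 - l) := by
  have h0 := coord_le hz 0
  have h1 := coord_le hz 1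
  have hq := q_norm h hz
  have ha := h.one_le
  have hl := h.hl2
  have hb0 : 0 ≤ a / (2 - l) := div_nonneg (by linarith) (by linarith)
  have hbn : ‖((a / (2 - l) : ℝ) : ℂ)‖ = a / (2 - l) := by
    rw [Complex.norm_real, Real.norm_of_nonneg hb0]
  have hff : ff l x0 a e z 0 = z 0 + ((a / (2 - l) : ℝ) : ℂ) * z 1 ^ 2 + e * q x0 z ^ 3 := rfl
  calc ‖ff l x0 a e z 0‖ ≤ ‖z 0‖ + ‖((a / (2 - l) : ℝ) : ℂ) * z 1 ^ 2‖ + ‖(e : ℂ) * q x0 z ^ 3‖ := by
        rw [hff]; exact norm_add₃_le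
    _ = ‖z 0‖ + a / (2 - l) * ‖z 1‖ ^ 2 + |e| * ‖q x0 z‖ ^ 3 := by
        rw [norm_mul, norm_mul, norm_pow, norm_pow, hbn, Complex.norm_real, Real.norm_eq_abs]
    _ ≤ 1 + a / (2 - l) * 1 ^ 2 + 1 / 24 * 2 ^ 3 := by gcongr
    _ ≤ 2 + a / (2 - l) := by linarith

theorem flow_est (h : Dat l x0 a) (he : |e| ≤ 1 / 24) {v : ℝ → E2} {z : E2}
    (hz : z ∈ ball (0 : E2) 1) (hv0 : v 0 = z)
    (hvb : ∀ t, 0 ≤ t → v t ∈ ball (0 : E2) 1)
    (hv : ∀ t, 0 ≤ t → HasDerivAt v (-(hh l x0 a e (v t))) t) {t : ℝ} (ht : 0 ≤ t) :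
    dist (ff l x0 a e z) (expA l t (v t)) ≤ err l (a / (2 - l)) t := by
  have c1 := coord1 hv0 hv ht
  have c0 := coord0 h he hv0 hvb hv ht
  have ha := h.one_le
  have hl1 := h.hl1
  have hl2 := h.hl2
  set b := a / (2 - l) with hb
  have hb0 : 0 ≤ b := div_nonneg (by linarith) (by linarith)
  have hbn : ‖((b : ℝ) : ℂ)‖ = b := by rw [Complex.norm_real, Real.norm_of_nonneg hb0]
  have hvt := hvb t ht
  -- norms
  set V0 := ‖v t 0‖ with hV0
  set V1 := ‖v t 1‖ with hV1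
  set Q := ‖q x0 (v t)‖ with hQ
  set X := Real.exp (-(l * t)) with hX
  set Y := Real.exp (-t) with hY
  have hX0 : 0 < X := Real.exp_pos _
  have hY0 : 0 < Y := Real.exp_pos _
  have hEX : Real.exp (l * t) * X = 1 := by rw [hX, ← Real.exp_add]; simp
  have hEY : Real.exp t * Y = 1 := by rw [hY, ← Real.exp_add]; simp
  have hYX : Y ^ 2 ≤ X := by
    rw [hY, hX, ← Real.exp_nat_mul]
    apply Real.exp_le_exp.2
    push_cast
    nlinarith
  have hV1Y : V1 ≤ Y := by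
    have h1 : Real.exp t * V1 = ‖z 1‖ := by
      rw [← c1, norm_mul, Complex.norm_real, Real.norm_of_nonneg (Real.exp_pos t).le]
    have h2 : V1 = ‖z 1‖ * Y := by
      calc V1 = (Real.exp t * Y) * V1 := by rw [hEY, one_mul]
        _ = (Real.exp t * V1) * Y := by ring
        _ = ‖z 1‖ * Y := by rw [h1]
    rw [h2]
    have := coord_le hz 1
    nlinarith
  have hV0n : 0 ≤ V0 := norm_nonneg _
  have hV1n : 0 ≤ V1 := norm_nonneg _
  have hQ0 : 0 ≤ Q := norm_nonneg _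
  have hQ2 : Q ≤ 2 := q_norm h hvt
  have hQV : Q ≤ V0 + V1 ^ 2 := q_norm' h (v t)
  have hV1sq : V1 ^ 2 ≤ X := by
    have : V1 ^ 2 ≤ Y ^ 2 := by gcongr
    linarith
  have hf1 : ‖ff l x0 a e (v t) 0‖ ≤ X * (2 + b) := by
    have h1 : ff l x0 a e (v t) 0 = (X : ℂ) * ff l x0 a e z 0 := by
      rw [← c0, ← mul_assoc]
      have : (X : ℂ) * (Real.exp (l * t) : ℂ) = 1 := by
        rw [← Complex.ofReal_mul, mul_comm, hEX]; simp
      rw [this, one_mul]
    rw [h1, norm_mul, Complex.norm_real, Real.norm_of_nonneg hX0.le]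
    have := norm_ff_le h he hz
    gcongr
  have hV0X : V0 ≤ (3 * b + 3) * X := by
    have e1 : v t 0 = ff l x0 a e (v t) 0 - ((b : ℝ) : ℂ) * v t 1 ^ 2 - e * q x0 (v t) ^ 3 := by
      have : ff l x0 a e (v t) 0 = v t 0 + ((b : ℝ) : ℂ) * v t 1 ^ 2 + e * q x0 (v t) ^ 3 := rfl
      rw [this]; ring
    have e2 : V0 ≤ ‖ff l x0 a e (v t) 0‖ + b * V1 ^ 2 + |e| * Q ^ 3 := by
      calc V0 = ‖ff l x0 a e (v t) 0 - ((b : ℝ) : ℂ) * v t 1 ^ 2 - e * q x0 (v t) ^ 3‖ := by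
            rw [hV0, ← e1]
        _ ≤ ‖ff l x0 a e (v t) 0 - ((b : ℝ) : ℂ) * v t 1 ^ 2‖ + ‖(e : ℂ) * q x0 (v t) ^ 3‖ :=
            norm_sub_le _ _
        _ ≤ ‖ff l x0 a e (v t) 0‖ + ‖((b : ℝ) : ℂ) * v t 1 ^ 2‖ + ‖(e : ℂ) * q x0 (v t) ^ 3‖ := by
            gcongr
            exact norm_sub_le _ _
        _ = _ := by
            rw [norm_mul, norm_mul, norm_pow, norm_pow, hbn, Complex.norm_real, Real.norm_eq_abs]
    have e3 : Q ^ 3 ≤ 4 * (V0 + X) := by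
      have : Q ^ 2 ≤ 4 := by nlinarith
      calc Q ^ 3 = Q ^ 2 * Q := by ring
        _ ≤ 4 * (V0 + X) := by gcongr; linarith
    have e4 : |e| * Q ^ 3 ≤ 1 / 24 * (4 * (V0 + X)) := by gcongr
    have e5 : b * V1 ^ 2 ≤ b * X := by gcongr
    nlinarith
  have hQX : Q ≤ (3 * b + 4) * X := by nlinarith
  -- the difference
  have d1 : (ff l x0 a e z - expA l t (v t)) 1 = 0 := by
    have : (ff l x0 a e z - expA l t (v t)) 1 = z 1 - (Real.exp t : ℂ) * v t 1 := rfl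
    rw [this, c1, sub_self]
  have d0 : (ff l x0 a e z - expA l t (v t)) 0 =
      (Real.exp (l * t) : ℂ) * (((b : ℝ) : ℂ) * v t 1 ^ 2 + e * q x0 (v t) ^ 3) := by
    have e1 : (ff l x0 a e z - expA l t (v t)) 0 =
      ff l x0 a e z 0 - (Real.exp (l * t) : ℂ) * v t 0 := rfl
    have e2 : ff l x0 a e (v t) 0 = v t 0 + ((b : ℝ) : ℂ) * v t 1 ^ 2 + e * q x0 (v t) ^ 3 := rfl
    rw [e1, ← c0, e2]
    ring
  have hnorm : ‖ff l x0 a e z - expA l t (v t)‖ = ‖(ff l x0 a e z - expA l t (v t)) 0‖ := by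
    rw [← pow_left_inj₀ (norm_nonneg _) (norm_nonneg _) two_ne_zero, EuclideanSpace.norm_sq_eq,
      Fin.sum_univ_two, d1]
    simp
  rw [dist_eq_norm, hnorm, d0, norm_mul, Complex.norm_real,
    Real.norm_of_nonneg (Real.exp_pos _).le]
  have f1 : ‖((b : ℝ) : ℂ) * v t 1 ^ 2 + e * q x0 (v t) ^ 3‖ ≤
      b * Y ^ 2 + ((3 * b + 4) * X) ^ 3 := by
    calc ‖((b : ℝ) : ℂ) * v t 1 ^ 2 + e * q x0 (v t) ^ 3‖
        ≤ ‖((b : ℝ) : ℂ) * v t 1 ^ 2‖ + ‖(e : ℂ) * q x0 (v t) ^ 3‖ := norm_add_le _ _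
      _ = b * V1 ^ 2 + |e| * Q ^ 3 := by
          rw [norm_mul, norm_mul, norm_pow, norm_pow, hbn, Complex.norm_real, Real.norm_eq_abs]
      _ ≤ b * Y ^ 2 + 1 * ((3 * b + 4) * X) ^ 3 := by
          gcongr
          linarith
      _ = _ := by ring
  calc Real.exp (l * t) * ‖((b : ℝ) : ℂ) * v t 1 ^ 2 + e * q x0 (v t) ^ 3‖
      ≤ Real.exp (l * t) * (b * Y ^ 2 + ((3 * b + 4) * X) ^ 3) := by gcongr
    _ = b * (Real.exp (l * t) * Y ^ 2) + (3 * b + 4) ^ 3 * ((Real.exp (l * t) * X) * X ^ 2) := by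
        ring
    _ = err l b t := by
        rw [hEX, one_mul]
        unfold err
        congr 2
        · rw [hY, ← Real.exp_nat_mul, ← Real.exp_add]
          congr 1
          push_cast
          ring
        · rw [hX, ← Real.exp_nat_mul]
          congr 1
          push_cast
          ring

theorem ff_mem (h : Dat l x0 a) (he : |e| ≤ 1 / (24 * bd l a)) : ff l x0 a e ∈ SA l := by
  have he' : |e| ≤ 1 / 24 := by
    refine he.trans ?_
    apply one_div_le_one_div_of_le (by norm_num)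
    linarith [bd_ge h]
  refine ⟨⟨(ff_diff l x0 a e).differentiableOn, ?_, ff_deriv l x0 a e⟩, ?_⟩
  · ext i
    fin_cases i
    · simp [ff, q_zero]
    · simp [ff]
  have hmem := hh_mem h he
  have hex : ∀ z : E2, ∃ v : ℝ → E2, z ∈ ball (0 : E2) 1 → v 0 = z ∧ Continuous v ∧
      ∀ t, 0 ≤ t → ‖v t‖ ≤ ‖z‖ ∧ HasDerivAt v (-(hh l x0 a e (v t))) t := by
    intro z
    by_cases hz : z ∈ ball (0 : E2) 1
    · obtain ⟨v, hv⟩ := ball_flow (hh_smooth h he') (fun u hu => by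
        by_cases hu0 : u = 0
        · simp [hu0]
        · exact (hmem.pos u hu hu0).le) hz
      exact ⟨v, fun _ => hv⟩
    · exact ⟨fun _ => 0, fun hh => absurd hh hz⟩
  choose v hv using hex
  have hball : ∀ z ∈ ball (0 : E2) 1, ∀ t, 0 ≤ t → v z t ∈ ball (0 : E2) 1 := by
    intro z hz t ht
    have h1 := ((hv z hz).2.2 t ht).1
    rw [mem_ball_zero_iff] at hz ⊢
    exact h1.trans_lt hz
  refine ⟨fun z _ => hh l x0 a e z, ⟨Eventually.of_forall fun t => hmem, fun z _ => measurable_const⟩,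
    v, ?_, ?_⟩
  · intro z hz t ht
    obtain ⟨hv0, hvc, hvd⟩ := hv z hz
    have hcont : ContinuousOn (fun s => hh l x0 a e (v z s)) (uIcc 0 t) := by
      have h1 := (hh_smooth h he').continuousOn
      refine h1.comp hvc.continuousOn fun s hs => ?_
      rw [uIcc_of_le ht] at hs
      exact hball z hz s hs.1
    have hint : IntervalIntegrable (fun s => hh l x0 a e (v z s)) volume 0 t :=
      hcont.intervalIntegrable
    refine ⟨hball z hz t ht, hint, ?_⟩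
    have := intervalIntegral.integral_eq_sub_of_hasDerivAt (a := 0) (b := t)
      (f := v z) (f' := fun s => -(hh l x0 a e (v z s))) (fun s hs => by
        rw [uIcc_of_le ht] at hs
        exact (hvd s hs.1).2) hint.neg
    rw [intervalIntegral.integral_neg, hv0] at this
    have h2 : v z t = z + (v z t - z) := by abel
    rw [h2, ← this]
    abel
  · apply TendstoUniformlyOn.tendstoLocallyUniformlyOn
    rw [Metric.tendstoUniformlyOn_iff]
    intro r hr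
    have h1 := err_tendsto h.hl1 h.hl2 (a / (2 - l))
    filter_upwards [h1.eventually (gt_mem_nhds hr), eventually_ge_atTop 0] with t ht1 ht0
    intro z hz
    obtain ⟨hv0, hvc, hvd⟩ := hv z hz
    exact (flow_est h he' hz hv0 (hball z hz) (fun s hs => (hvd s hs).2) ht0).trans_lt ht1

theorem F_eq (h : Dat l x0 a) : F l = ff l x0 a 0 := by
  funext z
  ext i
  fin_cases i
  · simp [F, ff, a0_eq h]
  · simp [F, ff]

theorem F_mid (h : Dat l x0 a) (z : E2) :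
    F l z = ((1 / 2 : ℝ) : ℂ) • ff l x0 a e z + ((1 - 1 / 2 : ℝ) : ℂ) • ff l x0 a (-e) z := by
  rw [F_eq h]
  ext i
  fin_cases i
  · simp [ff]
    ring
  · simp [ff]
    ring

theorem ff_ne (h : Dat l x0 a) (he : e ≠ 0) : ¬ EqOn (ff l x0 a e) (F l) (ball 0 1) := by
  intro hE
  have hz : (!₂[(1 / 2 : ℂ), 0] : E2) ∈ ball (0 : E2) 1 := by
    rw [ball_iff]
    simp
    norm_num
  have h1 := congrArg (fun w : E2 => w 0) (hE hz)
  rw [F_eq h] at h1
  simp only [ff, q] at h1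
  have h0 := h.x0pos
  have h2 := h.x0lt
  have h3 : ((1 - x0 ^ 2 : ℝ) : ℂ) ≠ 0 := by
    have : (1 - x0 ^ 2 : ℝ) ≠ 0 := by nlinarith
    exact_mod_cast this
  have h4 : (e : ℂ) ≠ 0 := by exact_mod_cast he
  simp at h1
  rcases h1 with h1 | h1
  · exact he h1
  · apply h3
    push_cast
    exact h1

end

/-- **MP_2eb075_an, Q1**: for every `l ∈ [1, 2)` the number `a₀` is a maximum, the map `F` belongs
to `S_A^0(𝔹²)` and is the midpoint of two maps of `S_A^0(𝔹²)` different from `F`; it is not an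
extreme point. -/
theorem result (l : ℝ) (hl1 : 1 ≤ l) (hl2 : l < 2) :
    IsGreatest (adm l) (a0 l) ∧ F l ∈ SA l ∧ ¬ IsExtreme (SA l) (F l) ∧
    ∃ g ∈ SA l, ∃ k ∈ SA l, ¬ EqOn g (F l) (ball 0 1) ∧ ¬ EqOn k (F l) (ball 0 1) ∧
      IsCombo (1 / 2) (F l) g k := by
  obtain ⟨x0, a, h⟩ := exists_dat hl1 hl2
  have hbd := bd_ge h
  have hE : 0 < 1 / (24 * bd l a) := by positivity
  set e := 1 / (24 * bd l a) with he
  have h1 : ff l x0 a e ∈ SA l := ff_mem h (by rw [abs_of_pos hE])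
  have h2 : ff l x0 a (-e) ∈ SA l := ff_mem h (by rw [abs_neg, abs_of_pos hE])
  have h3 : F l ∈ SA l := by
    rw [F_eq h]
    exact ff_mem h (by rw [abs_zero]; exact hE.le)
  refine ⟨isGreatest_a0 hl1 hl2, h3, ?_, ff l x0 a e, h1, ff l x0 a (-e), h2, ff_ne h hE.ne', ff_ne h (by simpa using hE.ne'),
    fun z _ => F_mid h z⟩
  intro hext
  exact ff_ne h hE.ne' (hext.2 _ h1 _ h2 (1 / 2) (by norm_num) (by norm_num)
    (fun z _ => F_mid h z)).1

end Pool.Agent.Results.MP_2eb075_an.NotExtreme
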